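import Pool.Agent.helper7.TW.SpecB
set_option autoImplicit false
open Finset Classical
namespace Pool.Agent.TW

theorem KB2_mgf (ι : Type) [Fintype ι] (y : ι → ℝ) (l : ℝ) :
    ∑ b : ι → Bool, Real.exp (l * ∑ j, y j * sg (b j)) ≤
      2 ^ (Fintype.card ι) * Real.exp (l ^ 2 * (∑ j, y j ^ 2) / 2) := by
  have h1 : ∀ b : ι → Bool, Real.exp (l * ∑ j, y j * sg (b j)) =
      ∏ j, Real.exp (l * (y j * sg (b j))) := by
    intro b
    rw [Finset.mul_sum, Real.exp_sum]
  have h2 : ∑ b : ι → Bool, ∏ j, Real.exp (l * (y j * sg (b j))) =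
      ∏ j, ∑ c : Bool, Real.exp (l * (y j * sg c)) := by
    rw [Finset.prod_univ_sum, Fintype.piFinset_univ]
  simp only [h1]
  rw [h2]
  have h3 : ∀ j, ∑ c : Bool, Real.exp (l * (y j * sg c)) ≤ 2 * Real.exp ((l * y j) ^ 2 / 2) := by
    intro j
    have h := Real.cosh_le_exp_half_sq (l * y j)
    rw [Real.cosh_eq] at h
    simp only [Fintype.sum_bool, sg]
    simp only [if_true, Bool.false_eq_true, if_false]
    have e1 : l * (y j * 1) = l * y j := by ring
    have e2 : l * (y j * -1) = -(l * y j) := by ring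
    rw [e1, e2]
    linarith
  calc ∏ j, ∑ c : Bool, Real.exp (l * (y j * sg c))
      ≤ ∏ j, (2 * Real.exp ((l * y j) ^ 2 / 2)) :=
        Finset.prod_le_prod (fun j _ => Finset.sum_nonneg (fun c _ => (Real.exp_pos _).le))
          (fun j _ => h3 j)
    _ = 2 ^ (Fintype.card ι) * Real.exp (l ^ 2 * (∑ j, y j ^ 2) / 2) := by
        rw [Finset.prod_mul_distrib, Finset.prod_const, Finset.card_univ, ← Real.exp_sum]
        congr 2
        rw [Finset.mul_sum, Finset.sum_div]
        refine Finset.sum_congr rfl (fun j _ => ?_)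
        ring

theorem KB2 : KB2_stmt := by
  intro ι _ y L hL
  set q : ℝ := ∑ j, y j ^ 2 with hq
  have hq0 : 0 ≤ q := Finset.sum_nonneg (fun j _ => sq_nonneg _)
  rcases hq0.eq_or_lt with hz | hqpos
  · have hy : ∀ j, y j = 0 := by
      intro j
      have := (Finset.sum_eq_zero_iff_of_nonneg (fun j _ => sq_nonneg (y j))).mp hz.symm j
        (Finset.mem_univ j)
      exact pow_eq_zero_iff (two_ne_zero) |>.mp this
    have he : ((univ : Finset (ι → Bool)).filter
      (fun b => 2 * L * q < (∑ j, y j * sg (b j)) ^ 2)) = ∅ := by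
      apply Finset.filter_eq_empty_iff.mpr
      intro b _
      simp [hy, ← hz]
    rw [he]
    simp only [Finset.card_empty, Nat.cast_zero]
    positivity
  · set l : ℝ := Real.sqrt (2 * L / q) with hl
    have hl0 : 0 ≤ l := Real.sqrt_nonneg _
    have hl2 : l ^ 2 * q = 2 * L := by
      rw [hl, Real.sq_sqrt (by positivity)]
      field_simp
    set S := ((univ : Finset (ι → Bool)).filter
      (fun b => 2 * L * q < (∑ j, y j * sg (b j)) ^ 2)) with hS
    have hpt : ∀ b ∈ S, Real.exp (2 * L) ≤ Real.exp (l * ∑ j, y j * sg (b j)) +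
        Real.exp ((-l) * ∑ j, y j * sg (b j)) := by
      intro b hb
      have hb' := (Finset.mem_filter.mp hb).2
      set Y := ∑ j, y j * sg (b j) with hY
      have h1 : 2 * L ≤ l * |Y| := by
        have h2 : (2 * L) ^ 2 ≤ (l * |Y|) ^ 2 := by
          have ea : (l * |Y|) ^ 2 = l ^ 2 * Y ^ 2 := by rw [mul_pow, sq_abs]
          rw [ea]
          have : l ^ 2 * Y ^ 2 * q = 2 * L * Y ^ 2 := by
            rw [mul_right_comm, hl2]
          have h3 : (2 * L) ^ 2 * q ≤ l ^ 2 * Y ^ 2 * q := by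
            rw [this]; nlinarith [hb'.le]
          exact le_of_mul_le_mul_right h3 hqpos
        have := sq_le_sq.mp h2
        rwa [abs_of_nonneg (by positivity), abs_of_nonneg (by positivity)] at this
      rcases abs_cases Y with ⟨h, _⟩ | ⟨h, _⟩
      · rw [h] at h1
        have := Real.exp_le_exp.mpr h1
        linarith [Real.exp_pos ((-l) * Y)]
      · rw [h] at h1
        have h4 : 2 * L ≤ (-l) * Y := by linarith
        have := Real.exp_le_exp.mpr h4
        linarith [Real.exp_pos (l * Y)]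
    have h5 : (S.card : ℝ) * Real.exp (2 * L) ≤
        ∑ b ∈ S, (Real.exp (l * ∑ j, y j * sg (b j)) + Real.exp ((-l) * ∑ j, y j * sg (b j))) := by
      rw [← nsmul_eq_mul, ← Finset.sum_const]
      exact Finset.sum_le_sum hpt
    have h6 : ∑ b ∈ S, (Real.exp (l * ∑ j, y j * sg (b j)) +
          Real.exp ((-l) * ∑ j, y j * sg (b j))) ≤
        ∑ b : ι → Bool, (Real.exp (l * ∑ j, y j * sg (b j)) +
          Real.exp ((-l) * ∑ j, y j * sg (b j))) :=
      Finset.sum_le_sum_of_subset_of_nonneg (Finset.subset_univ _) (fun b _ _ => by positivity)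
    have h7 := KB2_mgf ι y l
    have h8 := KB2_mgf ι y (-l)
    have h6' : ∑ b : ι → Bool, (Real.exp (l * ∑ j, y j * sg (b j)) +
          Real.exp ((-l) * ∑ j, y j * sg (b j))) = ∑ b : ι → Bool, Real.exp (l * ∑ j, y j * sg (b j))
          + ∑ b : ι → Bool, Real.exp ((-l) * ∑ j, y j * sg (b j)) := Finset.sum_add_distrib
    have e1 : l ^ 2 * (∑ j, y j ^ 2) / 2 = L := by rw [← hq, hl2]; ring
    have e2 : (-l) ^ 2 * (∑ j, y j ^ 2) / 2 = L := by rw [neg_sq, ← hq, hl2]; ring
    rw [e1] at h7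
    rw [e2] at h8
    have h9 : (S.card : ℝ) * Real.exp (2 * L) ≤ 2 ^ (Fintype.card ι) * (2 * Real.exp L) := by
      linarith
    have h10 : Real.exp (2 * L) = Real.exp L * Real.exp L := by
      rw [← Real.exp_add]; ring_nf
    have h11 : Real.exp (-L) * Real.exp L = 1 := by
      rw [← Real.exp_add]; simp
    have hE := Real.exp_pos L
    have h12 : (S.card : ℝ) * Real.exp L ≤ 2 ^ (Fintype.card ι) * 2 := by
      rw [h10] at h9
      have : ((S.card : ℝ) * Real.exp L) * Real.exp L ≤ (2 ^ (Fintype.card ι) * 2) * Real.exp L := by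
        linarith
      exact le_of_mul_le_mul_right this hE
    have h13 : (S.card : ℝ) = ((S.card : ℝ) * Real.exp L) * Real.exp (-L) := by
      rw [mul_assoc, mul_comm (Real.exp L), h11, mul_one]
    rw [h13]
    have := mul_le_mul_of_nonneg_right h12 (Real.exp_pos (-L)).le
    linarith

end Pool.Agent.TW
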